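import Pool.Agent.Q233.GSP.Main

/-!
# Common eigenvalues: families of finite Hausdorff dimension and spans of sequences
-/

set_option autoImplicit false
set_option linter.unusedSectionVars false

open Set Filter Topology MeasureTheory
open Pool.Agent.Y262.QE Pool.Agent.Y264.QR

noncomputable section

namespace Pool.Agent.Q233.GSP

/-- locally Lipschitz images of sets of small dimension are meagre -/
theorem lip_meagre' {X : Type} [MetricSpace X] [SecondCountableTopology X] {n : ℕ}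
    {f : X → (Fin n → ℝ)} (hf : LocallyLipschitz f) {Ψ : Set X} (hΨ : IsSigmaCompact Ψ)
    (hd : dimH Ψ < n) : IsMeagre (f '' Ψ) := by
  obtain ⟨K, hK, rfl⟩ := hΨ
  rw [image_iUnion]
  refine isMeagre_iUnion fun m => ?_
  have h3 : IsCompact (f '' K m) := (hK m).image hf.continuous
  have h4 : dimH (f '' K m) < (Module.finrank ℝ (Fin n → ℝ) : ENNReal) := by
    have h6 : dimH (f '' K m) ≤ dimH (K m) := by
      refine dimH_image_le_of_locally_lipschitzOn fun x _ => ?_
      obtain ⟨C, t, ht, hC⟩ := hf x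
      exact ⟨C, t, mem_nhdsWithin_of_mem_nhds ht, hC⟩
    refine (h6.trans (dimH_mono (subset_iUnion K m))).trans_lt ?_
    rw [Module.finrank_fin_fun]
    exact hd
  have h5 := dense_compl_of_dimH_lt_finrank h4
  refine IsNowhereDense.isMeagre ?_
  rw [h3.isClosed.isNowhereDense_iff]
  rwa [interior_eq_empty_iff_dense_compl]

variable {M : Type} [MetricSpace M] [CompactSpace M] [MeasurableSpace M] [BorelSpace M]
  [Nonempty M] (μ : Measure M) (D : Data M)

/-- at most `d` common eigenvalues with the members of families of dimension `< d + 1` -/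
theorem common_dim (hD : D.IsSurf μ)
    (hiso : ∀ i, ∀ z ∈ D.T i, ∃ c : ℝ, ∀ v, ‖D.A i z v‖ = c * ‖v‖)
    (B : Type) [AddCommGroup B] [Module ℝ B]
    [TopologicalSpace B] [IsTopologicalAddGroup B] [ContinuousSMul ℝ B] [BaireSpace B]
    (ι : B →L[ℝ] C(M, ℝ)) (hι : DenseRange ι) (d : ℕ) (Ψ : Set C(M, ℝ)) (hΨ : IsSigmaCompact Ψ)
    (hd : dimH Ψ < d + 1) :
    ∀ᶠ x in residual B, ∀ (u : ℕ → M → ℝ) (lam : ℕ → ℝ),
      EigBasis (D.conf fun y => Real.exp (ι x y)) (wm μ fun y => Real.exp (ι x y)) u lam →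
      ∀ ψ ∈ Ψ, ∀ (v : ℕ → M → ℝ) (nu : ℕ → ℝ),
      EigBasis (D.conf fun y => Real.exp (ψ y)) (wm μ fun y => Real.exp (ψ y)) v nu →
      lam ≠ nu ∧ (Common lam nu).encard ≤ d := by
  obtain ⟨E, hE, hE2⟩ := eig_facts μ D hD
  haveI : SecondCountableTopology C(M, ℝ) := inferInstance
  have hd' : dimH Ψ < ((d + 1 : ℕ) : ENNReal) := by
    rw [Nat.cast_add, Nat.cast_one]
    exact hd
  have hN : IsMeagre (⋃ q : Fin (d + 1) → ℕ, (fun ψ => fun l => E (q l) ψ) '' Ψ) :=
    isMeagre_iUnion fun q => lip_meagre' (loc_pi fun l => hE (q l)) hΨ hd'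
  filter_upwards [ptop3 μ D hD hiso B ι hι (d + 1) _ hN] with x hx u lam hu ψ hψ v nu hv
  have hle : (Common lam nu).encard ≤ d := by
    by_contra hcon
    obtain ⟨w, hw, hwS⟩ := exists_tuple hcon
    choose p hp using fun l => (hwS l).2.1
    choose q hq using fun l => (hwS l).2.2
    refine hx u lam hu p (fun l m hlm => hw ?_) (fun l => ?_) (mem_iUnion.2 ⟨q, ψ, hψ, ?_⟩)
    · rw [← hp, ← hp, hlm]
    · rw [hp]
      exact (hwS l).1
    · funext l
      simp only
      rw [← (hE2 ψ v nu hv).1, hq, hp]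
  exact ⟨ne_of_common (hE2 (ι x) u lam hu).2 hle, hle⟩

/-- finitely many common eigenvalues with the members of the span of a sequence -/
theorem common_span (hD : D.IsSurf μ)
    (hiso : ∀ i, ∀ z ∈ D.T i, ∃ c : ℝ, ∀ v, ‖D.A i z v‖ = c * ‖v‖)
    (B : Type) [AddCommGroup B] [Module ℝ B]
    [TopologicalSpace B] [IsTopologicalAddGroup B] [ContinuousSMul ℝ B] [BaireSpace B]
    (ι : B →L[ℝ] C(M, ℝ)) (hι : DenseRange ι) (h : ℕ → C(M, ℝ)) :
    ∀ᶠ x in residual B, ∀ (u : ℕ → M → ℝ) (lam : ℕ → ℝ),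
      EigBasis (D.conf fun y => Real.exp (ι x y)) (wm μ fun y => Real.exp (ι x y)) u lam →
      ∀ ψ ∈ Submodule.span ℝ (range h), ∀ (v : ℕ → M → ℝ) (nu : ℕ → ℝ),
      EigBasis (D.conf fun y => Real.exp (ψ y)) (wm μ fun y => Real.exp (ψ y)) v nu →
      lam ≠ nu ∧ (Common lam nu).Finite := by
  obtain ⟨T, hT⟩ : ∃ T : ∀ n : ℕ, (Fin n → ℝ) →L[ℝ] C(M, ℝ), ∀ n s, T n s = ∑ m, s m • h m := by
    refine ⟨fun n => ∑ m : Fin n, (ContinuousLinearMap.proj m : (Fin n → ℝ) →L[ℝ] ℝ).smulRight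
      (h m), fun n s => ?_⟩
    rw [ContinuousLinearMap.sum_apply]
    rfl
  obtain ⟨E, hE, hE2⟩ := eig_facts μ D hD
  have key : ∀ᶠ x in residual B, ∀ n : ℕ, ∀ (u : ℕ → M → ℝ) (lam : ℕ → ℝ),
      EigBasis (D.conf fun y => Real.exp (ι x y)) (wm μ fun y => Real.exp (ι x y)) u lam →
      ∀ s, (Common lam fun j => E j (T n s)).encard ≤ n := by
    rw [eventually_countable_forall]
    intro n
    exact common μ D hD hiso B ι hι n (fun s j => E j (T n s)) fun j =>
      (hE j).comp (T n).lipschitz.locallyLipschitz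
  filter_upwards [key] with x hx u lam hu ψ hψ v nu hv
  obtain ⟨c, hc⟩ := (Finsupp.mem_span_range_iff_exists_finsupp).1 hψ
  obtain ⟨n, hn⟩ : ∃ n : ℕ, c.support ⊆ Finset.range n := by
    refine ⟨c.support.sup id + 1, fun j hj => ?_⟩
    rw [Finset.mem_range, Nat.lt_succ_iff]
    exact Finset.le_sup (f := id) hj
  have hψn : T n (fun m => c m) = ψ := by
    rw [hT, ← hc, Finsupp.sum_of_support_subset c hn _ (fun j _ => zero_smul ℝ (h j)),
      Finset.sum_range]
  have h1 := hx n u lam hu fun m => c m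
  have h2 : (fun j => E j (T n fun m => c m)) = nu := by
    funext j
    rw [hψn, (hE2 ψ v nu hv).1]
  rw [h2] at h1
  exact ⟨ne_of_common (hE2 (ι x) u lam hu).2 h1, Set.finite_of_encard_le_coe h1⟩

end Pool.Agent.Q233.GSP
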