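import Mathlib

/-!
# Common eigenvalues: locally Lipschitz images of low dimension are meagre
-/

set_option autoImplicit false

open Set Filter Topology
open scoped NNReal

namespace Pool.Agent.Q233.GSP

/-- the image of `ℝ^d` under a locally Lipschitz map to `ℝ^(d + 1)` is meagre -/
theorem lip_meagre {d : ℕ} {f : (Fin d → ℝ) → (Fin (d + 1) → ℝ)} (hf : LocallyLipschitz f) :
    IsMeagre (range f) := by
  have hc : Continuous f := hf.continuous
  have h1 : range f = ⋃ m : ℕ, f '' Metric.closedBall 0 m := by
    rw [← image_univ, ← image_iUnion, Metric.iUnion_closedBall_nat]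
  have hdim : dimH (range f) < (Module.finrank ℝ (Fin (d + 1) → ℝ) : ENNReal) := by
    have h2 := dimH_range_le_of_locally_lipschitzOn (f := f) (fun x => hf x)
    rw [Real.dimH_univ_pi_fin] at h2
    refine h2.trans_lt ?_
    rw [Module.finrank_fin_fun]
    exact_mod_cast Nat.lt_succ_self d
  rw [h1]
  refine isMeagre_iUnion fun m => ?_
  have h3 : IsCompact (f '' Metric.closedBall 0 m) :=
    (isCompact_closedBall _ _).image hc
  have h4 : dimH (f '' Metric.closedBall 0 m) < (Module.finrank ℝ (Fin (d + 1) → ℝ) : ENNReal) :=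
    (dimH_mono (image_subset_range f _)).trans_lt hdim
  have h5 := dense_compl_of_dimH_lt_finrank h4
  refine IsNowhereDense.isMeagre ?_
  rw [h3.isClosed.isNowhereDense_iff]
  rwa [interior_eq_empty_iff_dense_compl]

end Pool.Agent.Q233.GSP
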