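import Pool.Agent.Q233.GSP.Tup

/-!
# Common eigenvalues: the theorem for surfaces with isothermal charts
-/

set_option autoImplicit false
set_option linter.unusedSectionVars false

open Set Filter Topology MeasureTheory
open Pool.Agent.Y262.QE Pool.Agent.Y264.QR Pool.Agent.Y319.QR Q101.QG Pool.Agent.Q233.GLV

noncomputable section

namespace Pool.Agent.Q233.GSP

variable {M : Type} [MetricSpace M] [CompactSpace M] [MeasurableSpace M] [BorelSpace M]
  [Nonempty M] (μ : Measure M) (D : Data M)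

/-- tuples of eigenvalues avoid meagre sets -/
theorem ptop3 (hD : D.IsSurf μ)
    (hiso : ∀ i, ∀ z ∈ D.T i, ∃ c : ℝ, ∀ v, ‖D.A i z v‖ = c * ‖v‖)
    (B : Type) [AddCommGroup B] [Module ℝ B]
    [TopologicalSpace B] [IsTopologicalAddGroup B] [ContinuousSMul ℝ B] [BaireSpace B]
    (ι : B →L[ℝ] C(M, ℝ)) (hι : DenseRange ι) (n : ℕ) (N : Set (Fin n → ℝ)) (hN : IsMeagre N) :
      ∀ᶠ x in residual B, ∀ (u : ℕ → M → ℝ) (lam : ℕ → ℝ),
      EigBasis (D.conf fun y => Real.exp (ι x y)) (wm μ fun y => Real.exp (ι x y)) u lam →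
      ∀ p : Fin n → ℕ, Function.Injective p → (∀ l, 0 < lam (p l)) →
        (fun l => lam (p l)) ∉ N := by
  obtain ⟨hf, -⟩ := tFin M μ D hD
  haveI := hf
  haveI : CompleteSpace (HF D μ) := by
    unfold HF
    exact (Submodule.isClosed_topologicalClosure _).completeSpace_coe
  obtain ⟨i, a, hSf, hi, ha⟩ := tPackF M μ D hD inferInstance
  obtain ⟨b, hB, hF, hpos, hcmp, -⟩ := tFm M μ (HF D μ) i a hSf
  have hW := tWl M μ D hD inferInstance i a b hSf hi ha hB
  have hbr := fun φ u lam hu => tBr M μ D hD i a b hSf hi ha hB hF φ u lam hu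
  have hEv : ∀ φ (u : ℕ → M → ℝ) (lam : ℕ → ℝ),
      EigBasis (D.conf fun x => Real.exp (φ x)) (wm μ fun x => Real.exp (φ x)) u lam →
      ∀ j, lam j = Ev a (b φ) j := by
    intro φ u lam hu j
    obtain ⟨e', -, he'⟩ := hbr φ u lam hu
    exact (Pool.Agent.Y592.QE.mm _ a (b φ) (hF φ) e' lam he' j).symm
  obtain ⟨hnn, -, -, -, hdich⟩ := tLip M μ (HF D μ) a b hF hcmp
  have hEv0 : ∀ φ, Ev a (b φ) 0 = 0 := by
    intro φ
    obtain ⟨e, E, hE⟩ := tSp (HF D μ) a (b φ) (hF φ)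
    rw [Pool.Agent.Y592.QE.mm _ a (b φ) (hF φ) e E hE 0]
    exact lam_zero hD hSf hi ha hB hF (hpos φ) hE
  have hup : ∀ (φ : C(M, ℝ)) (j : ℕ), 0 < Ev a (b φ) j → j ≠ 0 ∧ ∀ ψ, 0 < Ev a (b ψ) j := by
    intro φ j hj
    refine ⟨fun h => ?_, ?_⟩
    · rw [h, hEv0] at hj
      exact lt_irrefl _ hj
    · rcases hdich j with h | h
      · rw [h φ] at hj
        exact absurd hj (lt_irrefl _)
      · exact h
  have hFam := fam_osc hD hiso hSf hi ha hB
  have htot : ∀ (φ : C(M, ℝ)) (e : ℕ → HF D μ) (c : ℕ → ℝ) (J' : Finset ℕ), (∀ Ω ∈ Fam D,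
      ∑ j ∈ J', c j * Ω (fun x => (i (e j) x) ^ 2) = 0) →
      ∀ h : C(M, ℝ), ∑ j ∈ J', c j * kap μ i h φ (e j) = 0 :=
    fun φ e c J' h0 h => fam_tot hD φ e c J' h0 h
  have key : ∀ᶠ x in residual B, ∀ p : Fin n → ℕ, Function.Injective p →
      (∀ l, p l ≠ 0 ∧ ∀ φ, 0 < Ev a (b φ) (p l)) → Te a b p (ι x) ∉ N := by
    rw [eventually_countable_forall]
    intro p
    by_cases hp : Function.Injective p ∧ ∀ l, p l ≠ 0 ∧ ∀ φ, 0 < Ev a (b φ) (p l)
    · filter_upwards [te_avoid hSf hB hW hpos B ι hι hFam htot hp.1 hp.2 hN] with x hx _ _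
      exact hx
    · exact Eventually.of_forall fun x h h' => absurd ⟨h, h'⟩ hp
  filter_upwards [key] with x hx u lam hu p hp hl
  have h1 := hx p hp fun l => hup (ι x) (p l) (by
    rw [← hEv (ι x) u lam hu]
    exact hl l)
  have h4 : (fun l => lam (p l)) = Te a b p (ι x) := by
    funext l
    unfold Te
    rw [hEv (ι x) u lam hu (p l)]
  rw [h4]
  exact h1

/-- the eigenvalues are locally Lipschitz functions of the conformal factor and tend to infinity -/
theorem eig_facts (hD : D.IsSurf μ) : ∃ E : ℕ → C(M, ℝ) → ℝ, (∀ j, LocallyLipschitz (E j)) ∧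
    ∀ (φ : C(M, ℝ)) (u : ℕ → M → ℝ) (lam : ℕ → ℝ),
      EigBasis (D.conf fun y => Real.exp (φ y)) (wm μ fun y => Real.exp (φ y)) u lam →
      (∀ j, lam j = E j φ) ∧ Tendsto lam atTop atTop := by
  obtain ⟨hf, -⟩ := tFin M μ D hD
  haveI := hf
  obtain ⟨i, a, hSf, hi, ha⟩ := tPackF M μ D hD inferInstance
  obtain ⟨b, hB, hF, hpos, hcmp, -⟩ := tFm M μ (HF D μ) i a hSf
  refine ⟨fun j φ => Ev a (b φ) j, fun j => ev_loc hSf hB j, fun φ u lam hu => ?_⟩
  obtain ⟨e', -, he'⟩ := tBr M μ D hD i a b hSf hi ha hB hF φ u lam hu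
  exact ⟨fun j => (Pool.Agent.Y592.QE.mm _ a (b φ) (hF φ) e' lam he' j).symm, he'.tt⟩

/-- maps into a product are locally Lipschitz -/
lemma loc_pi {X : Type} [PseudoEMetricSpace X] {n : ℕ} {f : Fin n → X → ℝ}
    (hf : ∀ l, LocallyLipschitz (f l)) : LocallyLipschitz fun x => fun l => f l x := by
  intro x
  choose C t ht hC using fun l => hf l x
  refine ⟨Finset.univ.sup C, ⋂ l, t l, ?_, ?_⟩
  · exact (iInter_mem).2 ht
  · intro y hy z hz
    rw [edist_pi_le_iff]
    intro l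
    refine (hC l (mem_iInter.1 hy l) (mem_iInter.1 hz l)).trans ?_
    gcongr
    exact Finset.le_sup (f := C) (Finset.mem_univ l)

/-- `d + 1` different elements -/
lemma exists_tuple {S : Set ℝ} {d : ℕ} (h : ¬ S.encard ≤ d) :
    ∃ v : Fin (d + 1) → ℝ, Function.Injective v ∧ ∀ l, v l ∈ S := by
  have h1 : ((d + 1 : ℕ) : ℕ∞) ≤ S.encard := by
    rw [Nat.cast_add, Nat.cast_one]
    exact Order.add_one_le_of_lt (not_le.1 h)
  obtain ⟨t, htS, ht⟩ := Set.exists_subset_encard_eq h1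
  have hfin : t.Finite := Set.finite_of_encard_eq_coe ht
  have hcard : hfin.toFinset.card = d + 1 := by
    rw [hfin.encard_eq_coe_toFinset_card] at ht
    exact_mod_cast ht
  refine ⟨fun l => ((Finset.equivFinOfCardEq hcard).symm l : hfin.toFinset).1, ?_, fun l => ?_⟩
  · intro l m hlm
    exact (Finset.equivFinOfCardEq hcard).symm.injective (Subtype.ext hlm)
  · have := ((Finset.equivFinOfCardEq hcard).symm l).2
    rw [Set.Finite.mem_toFinset] at this
    exact htS this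

/-- common positive values of two sequences -/
def Common (lam nu : ℕ → ℝ) : Set ℝ := {t | 0 < t ∧ t ∈ range lam ∧ t ∈ range nu}

/-- at most `d` common values with the members of `d`-parameter families -/
theorem common (hD : D.IsSurf μ)
    (hiso : ∀ i, ∀ z ∈ D.T i, ∃ c : ℝ, ∀ v, ‖D.A i z v‖ = c * ‖v‖)
    (B : Type) [AddCommGroup B] [Module ℝ B]
    [TopologicalSpace B] [IsTopologicalAddGroup B] [ContinuousSMul ℝ B] [BaireSpace B]
    (ι : B →L[ℝ] C(M, ℝ)) (hι : DenseRange ι) (d : ℕ) (Λ : (Fin d → ℝ) → ℕ → ℝ)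
    (hΛ : ∀ j, LocallyLipschitz fun s => Λ s j) :
    ∀ᶠ x in residual B, ∀ (u : ℕ → M → ℝ) (lam : ℕ → ℝ),
      EigBasis (D.conf fun y => Real.exp (ι x y)) (wm μ fun y => Real.exp (ι x y)) u lam →
      ∀ s, (Common lam (Λ s)).encard ≤ d := by
  have hN : IsMeagre (⋃ q : Fin (d + 1) → ℕ, range fun s => fun l => Λ s (q l)) :=
    isMeagre_iUnion fun q => lip_meagre (loc_pi fun l => hΛ (q l))
  filter_upwards [ptop3 μ D hD hiso B ι hι (d + 1) _ hN] with x hx u lam hu s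
  by_contra hcon
  obtain ⟨v, hv, hvS⟩ := exists_tuple hcon
  choose p hp using fun l => (hvS l).2.1
  choose q hq using fun l => (hvS l).2.2
  refine hx u lam hu p (fun l m hlm => hv ?_) (fun l => ?_) (mem_iUnion.2 ⟨q, s, ?_⟩)
  · rw [← hp, ← hp, hlm]
  · rw [hp]
    exact (hvS l).1
  · funext l
    simp only
    rw [hq, hp]

/-- sequences with finitely many common positive values are different, if one tends to infinity -/
lemma ne_of_common {lam nu : ℕ → ℝ} (ht : Tendsto lam atTop atTop) {d : ℕ}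
    (h : (Common lam nu).encard ≤ d) : lam ≠ nu := by
  rintro rfl
  have hfin : (Common lam lam).Finite := Set.finite_of_encard_le_coe h
  obtain ⟨C, hC⟩ := hfin.bddAbove
  obtain ⟨j, hj1, hj2⟩ := ((ht.eventually_gt_atTop C).and (ht.eventually_gt_atTop 0)).exists
  exact absurd (hC ⟨hj2, ⟨j, rfl⟩, ⟨j, rfl⟩⟩) (not_le.2 hj1)

end Pool.Agent.Q233.GSP
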