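import Pool.Agent.Q233.GLV.GTop2
import Pool.Agent.Q233.GSP.Lip

/-!
# Common eigenvalues: tuples of eigenvalues avoid meagre sets
-/

set_option autoImplicit false
set_option linter.unusedSectionVars false

open Set Filter Topology MeasureTheory
open Pool.Agent.Y262.QE Pool.Agent.Y264.QR Pool.Agent.Y319.QR Q101.QG Pool.Agent.Q233.GLV

noncomputable section

namespace Pool.Agent.Q233.GSP

section forms

variable {M : Type} [MetricSpace M] [CompactSpace M] [MeasurableSpace M] [BorelSpace M]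
  {μ : Measure M} [IsFiniteMeasure μ] {H : Type} [NormedAddCommGroup H] [InnerProductSpace ℝ H]
  {i : H →L[ℝ] Lp ℝ 2 μ} {a : H →L[ℝ] H →L[ℝ] ℝ} {b : C(M, ℝ) → H →L[ℝ] H →L[ℝ] ℝ}

/-- a tuple of eigenvalues -/
def Te (a : H →L[ℝ] H →L[ℝ] ℝ) (b : C(M, ℝ) → H →L[ℝ] H →L[ℝ] ℝ) {n : ℕ}
    (p : Fin n → ℕ) (φ : C(M, ℝ)) : Fin n → ℝ := fun l => Ev a (b φ) (p l)

lemma te_cont (hS : Sf μ i a) (hB : IsB μ i b) {n : ℕ} (p : Fin n → ℕ) :
    Continuous (Te a b p) := by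
  obtain ⟨hF, hb, hk⟩ := forms μ i a b hS hB
  obtain ⟨-, -, -, hcont, -⟩ := tLip M μ H a b hF hb
  exact continuous_pi fun l => hcont _

/-- at a good conformal factor the tuples of eigenvalues cover a neighbourhood -/
theorem te_open [CompleteSpace H] (hS : Sf μ i a) (hB : IsB μ i b)
    {B : Type} [AddCommGroup B] [Module ℝ B]
    [TopologicalSpace B] [IsTopologicalAddGroup B] [ContinuousSMul ℝ B]
    (ι : B →L[ℝ] C(M, ℝ)) (hι : DenseRange ι) {n : ℕ} {p : Fin n → ℕ}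
    (hp : Function.Injective p) {x : B} (hp0 : ∀ l, p l ≠ 0 ∧ 0 < Ev a (b (ι x)) (p l))
    (hx : ι x ∈ GoodS μ i a b (insert 0 (Finset.univ.image p))) {W : Set B} (hW : IsOpen W)
    (hxW : x ∈ W) : (fun y => Te a b p (ι y)) '' W ∈ 𝓝 (Te a b p (ι x)) := by
  obtain ⟨hF, hb, -⟩ := forms μ i a b hS hB
  obtain ⟨e, E, hE⟩ := tSp H a (b (ι x)) (hF _)
  have hmm : ∀ j, Ev a (b (ι x)) j = E j := fun j =>
    Pool.Agent.Y592.QE.mm H a (b (ι x)) (hF _) e E hE j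
  obtain ⟨κ, hκ⟩ := dual hS hB (hx.2 e E hE) ι hι
  have hmem : ∀ l, p l ∈ insert 0 (Finset.univ.image p) := fun l =>
    Finset.mem_insert_of_mem (Finset.mem_image_of_mem p (Finset.mem_univ l))
  choose L hL using fun j => pwC hS hB (ι x) e j
  have hLκ : ∀ l m, L (p l) (ι (κ (p m))) = if m = l then 1 else 0 := fun l m => by
    rw [hL, hκ _ (hmem m) _ (hmem l)]
    by_cases h : m = l
    · rw [h, if_pos rfl, if_pos rfl]
    · rw [if_neg h, if_neg fun h' => h (hp h')]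
  -- the linear map
  obtain ⟨T, hT⟩ : ∃ T : (Fin n → ℝ) →L[ℝ] C(M, ℝ), ∀ s, T s = ∑ m, s m • ι (κ (p m)) := by
    refine ⟨∑ m, (ContinuousLinearMap.proj m : (Fin n → ℝ) →L[ℝ] ℝ).smulRight (ι (κ (p m))),
      fun s => ?_⟩
    rw [ContinuousLinearMap.sum_apply]
    rfl
  obtain ⟨G, hG⟩ : ∃ G : (Fin n → ℝ) → (Fin n → ℝ), G = fun s => Te a b p (ι x + T s) := ⟨_, rfl⟩
  obtain ⟨G', hG'⟩ : ∃ G' : (Fin n → ℝ) →L[ℝ] (Fin n → ℝ), ∀ s l, G' s l = -(E (p l)) * s l := by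
    refine ⟨ContinuousLinearMap.pi fun l => (-(E (p l))) •
      (ContinuousLinearMap.proj l : (Fin n → ℝ) →L[ℝ] ℝ), fun s l => ?_⟩
    rfl
  have hbase : HasStrictFDerivAt (fun s : Fin n → ℝ => ι x + T s) T 0 :=
    (T.hasStrictFDerivAt).const_add (ι x)
  have hx0 : ι x + T 0 = ι x := by rw [map_zero, add_zero]
  have hder : HasStrictFDerivAt G G' 0 := by
    rw [hG, hasStrictFDerivAt_pi']
    intro l
    have h1 := strict_ev hS hB hE (hp0 l).1 (hx.1 (p l) (hmem l) (hp0 l).1) (hL (p l))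
    have h4 : HasStrictFDerivAt (fun ψ : C(M, ℝ) => Ev a (b ψ) (p l))
        (-(E (p l)) • L (p l)) (ι x + T 0) := by
      rw [hx0]
      exact h1
    have h5 := h4.comp (0 : Fin n → ℝ) hbase
    have h6 : (-(E (p l)) • L (p l)).comp T =
        (ContinuousLinearMap.proj l : (Fin n → ℝ) →L[ℝ] ℝ).comp G' := by
      ext1 s
      rw [ContinuousLinearMap.comp_apply, ContinuousLinearMap.comp_apply,
        ContinuousLinearMap.proj_apply, hG', hT]
      simp only [_root_.smul_apply, map_sum, map_smul, smul_eq_mul, hLκ,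
        mul_ite, mul_one, mul_zero, Finset.sum_ite_eq', Finset.mem_univ, if_true]
      try ring
    rw [← h6]
    exact h5
  have hsurj : G'.range = ⊤ := by
    rw [eq_top_iff]
    intro s _
    refine ⟨fun l => -(s l) / E (p l), ?_⟩
    funext l
    have h1 : 0 < E (p l) := by rw [← hmm]; exact (hp0 l).2
    have h2 : (G' : (Fin n → ℝ) → (Fin n → ℝ)) (fun l => -(s l) / E (p l)) l = s l := by
      rw [hG']
      field_simp
    exact h2
  have hmap := hder.map_nhds_eq_of_surj hsurj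
  have hG0 : G 0 = Te a b p (ι x) := by rw [hG]; simp only; rw [hx0]
  rw [← hG0, ← hmap]
  have hc : Continuous fun s : Fin n → ℝ => x + ∑ m, s m • κ (p m) := by fun_prop
  have hV : (fun s : Fin n → ℝ => x + ∑ m, s m • κ (p m)) ⁻¹' W ∈ 𝓝 (0 : Fin n → ℝ) := by
    refine hc.continuousAt.preimage_mem_nhds ?_
    simp only [Pi.zero_apply, zero_smul, Finset.sum_const_zero, add_zero]
    exact hW.mem_nhds hxW
  refine mem_of_superset (image_mem_map hV) ?_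
  rintro _ ⟨s, hs, rfl⟩
  refine ⟨x + ∑ m, s m • κ (p m), hs, ?_⟩
  rw [hG]
  simp only
  rw [hT, map_add, map_sum]
  simp only [map_smul]

/-- **tuples of eigenvalues of generic conformal factors avoid meagre sets** -/
theorem te_avoid [CompleteSpace H] (hS : Sf μ i a) (hB : IsB μ i b) (hW : Wl μ a b)
    (hA : ∀ φ : C(M, ℝ), 0 < ∫ x, Real.exp (φ x) ∂μ)
    (B : Type) [AddCommGroup B] [Module ℝ B]
    [TopologicalSpace B] [IsTopologicalAddGroup B] [ContinuousSMul ℝ B] [BaireSpace B]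
    (ι : B →L[ℝ] C(M, ℝ)) (hι : DenseRange ι)
    {Fa : Set ((M → ℝ) → ℝ)} (hFam : ∀ Ω ∈ Fa, ∃ h C w, Osc μ i a b Ω h C w)
    (htot : ∀ (φ : C(M, ℝ)) (e : ℕ → H) (c : ℕ → ℝ) (J' : Finset ℕ), (∀ Ω ∈ Fa,
      ∑ j ∈ J', c j * Ω (fun x => (i (e j) x) ^ 2) = 0) →
      ∀ h : C(M, ℝ), ∑ j ∈ J', c j * kap μ i h φ (e j) = 0) {n : ℕ} {p : Fin n → ℕ}
    (hp : Function.Injective p) (hp0 : ∀ l, p l ≠ 0 ∧ ∀ φ, 0 < Ev a (b φ) (p l))
    {N : Set (Fin n → ℝ)} (hN : IsMeagre N) :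
    ∀ᶠ x in residual B, Te a b p (ι x) ∉ N := by
  obtain ⟨S, hS1, hS2, hS3⟩ := isMeagre_iff_countable_union_isNowhereDense.1 hN
  have hgd := good_dense hS hB hW hA B ι hι hFam htot (Finset.univ.image p) (by
    intro j hj
    obtain ⟨l, -, rfl⟩ := Finset.mem_image.1 hj
    exact hp0 l)
  have key : ∀ s ∈ S, ∀ᶠ x in residual B, Te a b p (ι x) ∉ closure s := by
    intro s hs
    have hopen : IsOpen {x : B | Te a b p (ι x) ∉ closure s} :=
      isClosed_closure.isOpen_compl.preimage ((te_cont hS hB p).comp ι.continuous)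
    refine residual_of_dense_open hopen ?_
    rw [dense_iff_inter_open]
    intro W hWo hWne
    by_contra hcon
    obtain ⟨x, hxW, hxG⟩ := (dense_iff_inter_open.1 hgd) W hWo hWne
    have h1 := te_open hS hB ι hι hp (fun l => ⟨(hp0 l).1, (hp0 l).2 _⟩) hxG hWo hxW
    have h2 : (fun y => Te a b p (ι y)) '' W ⊆ closure s := by
      rintro _ ⟨y, hy, rfl⟩
      by_contra hn
      exact hcon ⟨y, hy, hn⟩
    have h3 : Te a b p (ι x) ∈ interior (closure s) :=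
      mem_interior_iff_mem_nhds.2 (mem_of_superset h1 h2)
    have h4 : interior (closure s) = ∅ := hS1 s hs
    rw [h4] at h3
    exact h3
  have key2 : ∀ᶠ x in residual B, ∀ s ∈ S, Te a b p (ι x) ∉ closure s := by
    rw [eventually_countable_ball hS2]
    exact key
  filter_upwards [key2] with x hx hmem
  obtain ⟨s, hs, hxs⟩ := hS3 hmem
  exact hx s hs (subset_closure hxs)

/-- the eigenvalues are locally Lipschitz functions of the conformal factor -/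
theorem ev_loc (hS : Sf μ i a) (hB : IsB μ i b) (j : ℕ) :
    LocallyLipschitz fun φ : C(M, ℝ) => Ev a (b φ) j := by
  obtain ⟨hF, hb, -⟩ := forms μ i a b hS hB
  obtain ⟨hnn, -, hlip, -, -⟩ := tLip M μ H a b hF hb
  intro φ₀
  obtain ⟨A, hA⟩ : ∃ A : ℝ, A = Real.exp 1 * Ev a (b φ₀) j := ⟨_, rfl⟩
  have hA0 : 0 ≤ A := by rw [hA]; exact mul_nonneg (Real.exp_pos _).le (hnn _ _)
  refine ⟨⟨2 * A, by positivity⟩, Metric.ball φ₀ (1 / 2), Metric.ball_mem_nhds _ (by norm_num), ?_⟩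
  rw [lipschitzOnWith_iff_dist_le_mul]
  have hone : ∀ φ ∈ Metric.ball φ₀ (1 / 2), ∀ ψ ∈ Metric.ball φ₀ (1 / 2),
      Ev a (b φ) j - Ev a (b ψ) j ≤ 2 * A * ‖φ - ψ‖ := by
    intro φ hφ ψ hψ
    rw [mem_ball_iff_norm] at hφ hψ
    have h1 : ‖φ - ψ‖ ≤ 1 := by
      calc ‖φ - ψ‖ = ‖(φ - φ₀) - (ψ - φ₀)‖ := by rw [sub_sub_sub_cancel_right]
        _ ≤ ‖φ - φ₀‖ + ‖ψ - φ₀‖ := norm_sub_le _ _
        _ ≤ 1 := by linarith
    have h2 : Ev a (b ψ) j ≤ A := by
      rw [hA]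
      refine (hlip ψ φ₀ j).trans (mul_le_mul_of_nonneg_right ?_ (hnn _ _))
      exact Real.exp_le_exp.2 (by linarith)
    have h3 := hlip φ ψ j
    have h4 : Real.exp ‖φ - ψ‖ - 1 ≤ 2 * ‖φ - ψ‖ := by
      have h5 := Real.abs_exp_sub_one_le (x := ‖φ - ψ‖) (by rw [abs_of_nonneg (norm_nonneg _)]; exact h1)
      rw [abs_of_nonneg (norm_nonneg (φ - ψ))] at h5
      exact (le_abs_self _).trans h5
    calc Ev a (b φ) j - Ev a (b ψ) j ≤ (Real.exp ‖φ - ψ‖ - 1) * Ev a (b ψ) j := by linarith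
      _ ≤ 2 * ‖φ - ψ‖ * A := mul_le_mul h4 h2 (hnn _ _) (by positivity)
      _ = 2 * A * ‖φ - ψ‖ := by ring
  intro φ hφ ψ hψ
  rw [Real.dist_eq, dist_eq_norm]
  change |Ev a (b φ) j - Ev a (b ψ) j| ≤ 2 * A * ‖φ - ψ‖
  rw [abs_le]
  constructor
  · have := hone ψ hψ φ hφ
    rw [norm_sub_rev] at this
    linarith
  · exact hone φ hφ ψ hψ

end forms

end Pool.Agent.Q233.GSP
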